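import Pool.Agent.helper90.IV.Spec

/-!
# MP_26dbae_co, module EXT

Dyadic summation of `EXK`.
-/

set_option autoImplicit false

open scoped BigOperators

namespace Pool.Agent.helper40.IV

open Pool.Agent.helper23.TH Pool.Agent.KS Pool.Agent.IV

noncomputable section

open Classical

theorem geo_range (r : ℝ) (hr : 2 ≤ r) (m : ℕ) :
    ∑ i ∈ Finset.range (m + 1), r ^ i ≤ 2 * r ^ m := by
  induction m with
  | zero => simp
  | succ m ih =>
    rw [Finset.sum_range_succ]
    have h0 : (0 : ℝ) ≤ r ^ m := by positivity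
    have h1 : r ^ (m + 1) = r ^ m * r := pow_succ r m
    nlinarith [mul_le_mul_of_nonneg_left hr h0]

theorem geo_sum (r : ℝ) (hr : 2 ≤ r) (J : Finset ℕ) (B : ℝ) (hB : 0 ≤ B)
    (h : ∀ i ∈ J, r ^ i ≤ B) : ∑ i ∈ J, r ^ i ≤ 2 * B := by
  rcases J.eq_empty_or_nonempty with he | hne
  · rw [he]
    simp
    linarith
  · have h1 : J ⊆ Finset.range (J.max' hne + 1) := by
      intro i hi
      rw [Finset.mem_range]
      have := Finset.le_max' J i hi
      omega
    have h2 : ∑ i ∈ J, r ^ i ≤ ∑ i ∈ Finset.range (J.max' hne + 1), r ^ i := by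
      apply Finset.sum_le_sum_of_subset_of_nonneg h1
      intro i _ _
      positivity
    have h3 := geo_range r hr (J.max' hne)
    have h4 := h _ (Finset.max'_mem J hne)
    linarith

theorem EXT (hK : EXK_stmt) : EXT_stmt := by
  intro s h pj q κ hs hκ
  obtain ⟨Ch, C₂, L₂, hC₂, hL₂, hE⟩ := hK s h pj q hs
  have hκ0 : 0 < κ := by linarith
  refine ⟨κ ^ s * (2 * Ch + 2 * C₂ + 2 ^ (s + 1) * κ * L₂), by positivity, ?_⟩
  intro V K _ A lam d hP hd hlo hhi hRB w
  have hDpos : 0 < deg A w := by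
    have h1 := hlo w
    have : (0 : ℝ) < (deg A w : ℝ) := by linarith
    exact_mod_cast this
  have hDR : (0 : ℝ) < (deg A w : ℝ) := by exact_mod_cast hDpos
  have hcdD : ∀ a, cd A w a ≤ deg A w := by
    intro a
    unfold cd deg
    apply Finset.card_le_card
    intro m hm
    simp only [Finset.mem_filter, Finset.mem_univ, true_and] at hm ⊢
    exact hm.1
  let S : Finset V := (Finset.univ.erase w).filter (fun a => 1 ≤ cd A w a)
  let lg : V → ℕ := fun a => Nat.log 2 (cd A w a)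
  let I : ℕ := Nat.log 2 (deg A w) + 1
  let X : ℕ → Finset V := fun i => S.filter (fun a => lg a = i)
  have hmaps : ∀ a ∈ S, lg a ∈ Finset.range I := by
    intro a _
    rw [Finset.mem_range]
    show Nat.log 2 (cd A w a) < Nat.log 2 (deg A w) + 1
    have := Nat.log_mono_right (b := 2) (hcdD a)
    omega
  have hX : ∀ i, ∀ a ∈ X i, a ≠ w ∧ 2 ^ i ≤ cd A w a ∧ cd A w a < 2 * 2 ^ i := by
    intro i a ha
    have h1 := Finset.mem_filter.mp ha
    have h2 := Finset.mem_filter.mp h1.1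
    have h3 := (Finset.mem_erase.mp h2.1).1
    have h4 : Nat.log 2 (cd A w a) = i := h1.2
    refine ⟨h3, ?_, ?_⟩
    · rw [← h4]
      exact Nat.pow_log_le_self 2 (by omega)
    · rw [← h4]
      have := Nat.lt_pow_succ_log_self (b := 2) (by norm_num) (cd A w a)
      rw [pow_succ] at this
      omega
  have hsum : ∑ w' ∈ Finset.univ.erase w, (cd A w w' : ℝ) ^ s =
      ∑ i ∈ Finset.range I, ∑ a ∈ X i, (cd A w a : ℝ) ^ s := by
    have e1 : ∑ i ∈ Finset.range I, ∑ a ∈ X i, (cd A w a : ℝ) ^ s =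
        ∑ a ∈ S, (cd A w a : ℝ) ^ s :=
      Finset.sum_fiberwise_of_maps_to hmaps (fun a => (cd A w a : ℝ) ^ s)
    rw [e1]
    symm
    apply Finset.sum_subset (Finset.filter_subset _ _)
    intro a ha hna
    have h0 : cd A w a = 0 := by
      by_contra hne
      apply hna
      exact Finset.mem_filter.mpr ⟨ha, by omega⟩
    rw [h0]
    simp
    omega
  -- the three parts
  let f : V → ℝ := fun a => ((Finset.univ.filter fun z : Fin s → V =>
    (∀ i, A w (z i) ∧ A a (z i)) ∧ cn A z < Ch).card : ℝ)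
  have hpart : ∀ i ∈ Finset.range I, ∑ a ∈ X i, (cd A w a : ℝ) ^ s ≤
      2 * ∑ a ∈ X i, f a + C₂ * (((2 : ℝ) ^ (s - 1)) ^ i * deg A w) +
      if ((2 : ℝ) ^ (s - 1)) ^ i < L₂ * (deg A w : ℝ) ^ (s - 2) then
        2 ^ s * κ * (deg A w : ℝ) ^ 2 * ((2 : ℝ) ^ (s - 1)) ^ i else 0 := by
    intro i _
    have hE' := hE V K A lam hP hRB w (2 ^ i) (X i) Nat.one_le_two_pow (hX i)
    have ep : (((2 ^ i : ℕ) : ℝ)) ^ (s - 1) = ((2 : ℝ) ^ (s - 1)) ^ i := by
      push_cast
      rw [← pow_mul, ← pow_mul, mul_comm]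
    rw [ep] at hE'
    refine hE'.trans ?_
    apply add_le_add le_rfl
    split_ifs with hc
    · -- `k #X ≤ κ D^2`
      have hk : (((2 ^ i : ℕ) : ℝ)) * (X i).card ≤ κ * (deg A w : ℝ) ^ 2 := by
        have a1 : (((2 ^ i : ℕ) : ℝ)) * (X i).card ≤ ∑ a ∈ X i, (cd A w a : ℝ) := by
          have : ∑ a ∈ X i, (((2 ^ i : ℕ) : ℝ)) ≤ ∑ a ∈ X i, (cd A w a : ℝ) := by
            apply Finset.sum_le_sum
            intro a ha
            exact_mod_cast (hX i a ha).2.1
          rw [Finset.sum_const, nsmul_eq_mul] at this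
          linarith
        have a2 : ∑ a ∈ X i, (cd A w a : ℝ) ≤ ∑ a, (cd A w a : ℝ) := by
          apply Finset.sum_le_sum_of_subset_of_nonneg (Finset.subset_univ _)
          intro a _ _
          positivity
        have a3 : ∑ a, (cd A w a) = ∑ m ∈ Finset.univ.filter (fun m => A w m), deg A m := by
          unfold cd deg
          simp_rw [Finset.card_filter]
          rw [Finset.sum_comm, Finset.sum_filter]
          apply Finset.sum_congr rfl
          intro m _
          by_cases hm : A w m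
          · simp only [hm, true_and, if_true]
            apply Finset.sum_congr rfl
            intro a _
            have : A a m ↔ A m a := ⟨hP.symm a m, hP.symm m a⟩
            simp only [this]
          · simp [hm]
        have a4 : ((∑ a, (cd A w a) : ℕ) : ℝ) ≤ (deg A w : ℝ) * (κ * d) := by
          rw [a3]
          push_cast
          have : ∑ m ∈ Finset.univ.filter (fun m => A w m), (deg A m : ℝ) ≤
              ∑ m ∈ Finset.univ.filter (fun m => A w m), κ * d :=
            Finset.sum_le_sum (fun m _ => hhi m)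
          rw [Finset.sum_const, nsmul_eq_mul] at this
          exact this
        push_cast at a4
        have a5 : κ * d ≤ κ * (deg A w : ℝ) := mul_le_mul_of_nonneg_left (hlo w) hκ0.le
        have a6 : (deg A w : ℝ) * (κ * d) ≤ (deg A w : ℝ) * (κ * (deg A w : ℝ)) :=
          mul_le_mul_of_nonneg_left a5 hDR.le
        have a7 : (deg A w : ℝ) * (κ * (deg A w : ℝ)) = κ * (deg A w : ℝ) ^ 2 := by ring
        push_cast at a1
        push_cast
        linarith
      have e2 : (((2 ^ i : ℕ) : ℝ)) ^ s = (((2 ^ i : ℕ) : ℝ)) ^ (s - 1) * ((2 ^ i : ℕ) : ℝ) := by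
        rw [← pow_succ]
        congr 1
        omega
      rw [e2, ep]
      have h0 : (0 : ℝ) ≤ 2 ^ s * ((2 : ℝ) ^ (s - 1)) ^ i := by positivity
      calc 2 ^ s * (((2 : ℝ) ^ (s - 1)) ^ i * ((2 ^ i : ℕ) : ℝ)) * ((X i).card : ℝ)
          = (2 ^ s * ((2 : ℝ) ^ (s - 1)) ^ i) * (((2 ^ i : ℕ) : ℝ) * ((X i).card : ℝ)) := by ring
        _ ≤ (2 ^ s * ((2 : ℝ) ^ (s - 1)) ^ i) * (κ * (deg A w : ℝ) ^ 2) :=
            mul_le_mul_of_nonneg_left hk h0
        _ = 2 ^ s * κ * (deg A w : ℝ) ^ 2 * ((2 : ℝ) ^ (s - 1)) ^ i := by ring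
    · exact le_rfl
  have hr : (2 : ℝ) ≤ 2 ^ (s - 1) := by
    have : (2 : ℝ) ^ 1 ≤ 2 ^ (s - 1) := pow_le_pow_right₀ (by norm_num) (by omega)
    simpa using this
  -- first part
  have hA : ∑ i ∈ Finset.range I, ∑ a ∈ X i, f a ≤ Ch * (deg A w : ℝ) ^ s := by
    have e1 : ∑ i ∈ Finset.range I, ∑ a ∈ X i, f a = ∑ a ∈ S, f a :=
      Finset.sum_fiberwise_of_maps_to hmaps f
    have e2 : ∑ a ∈ S, f a ≤ ∑ a, f a := by
      apply Finset.sum_le_sum_of_subset_of_nonneg (Finset.subset_univ _)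
      intro a _ _
      positivity
    have e3 : ∑ a, (Finset.univ.filter fun z : Fin s → V =>
        (∀ i, A w (z i) ∧ A a (z i)) ∧ cn A z < Ch).card =
        ∑ z ∈ Finset.univ.filter (fun z : Fin s → V => (∀ i, A w (z i)) ∧ cn A z < Ch), cn A z := by
      unfold cn
      simp_rw [Finset.card_filter]
      rw [Finset.sum_comm, Finset.sum_filter]
      apply Finset.sum_congr rfl
      intro z _
      split_ifs with hz
      · apply Finset.sum_congr rfl
        intro a _
        by_cases ha : ∀ i, A a (z i)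
        · rw [if_pos ha, if_pos ⟨fun i => ⟨hz.1 i, ha i⟩, hz.2⟩]
        · rw [if_neg ha, if_neg (fun hh => ha (fun i => (hh.1 i).2))]
      · apply Finset.sum_eq_zero
        intro a _
        rw [if_neg (fun hh => hz ⟨fun i => (hh.1 i).1, hh.2⟩)]
    have e4 : (∑ z ∈ Finset.univ.filter (fun z : Fin s → V => (∀ i, A w (z i)) ∧ cn A z < Ch),
        cn A z) ≤ (deg A w) ^ s * Ch := by
      have g1 : (∑ z ∈ Finset.univ.filter (fun z : Fin s → V => (∀ i, A w (z i)) ∧ cn A z < Ch),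
          cn A z) ≤ ∑ z ∈ Finset.univ.filter
            (fun z : Fin s → V => (∀ i, A w (z i)) ∧ cn A z < Ch), Ch := by
        apply Finset.sum_le_sum
        intro z hz
        exact (Finset.mem_filter.mp hz).2.2.le
      rw [Finset.sum_const, smul_eq_mul] at g1
      refine g1.trans (Nat.mul_le_mul_right _ ?_)
      have g2 : (Finset.univ.filter
          (fun z : Fin s → V => (∀ i, A w (z i)) ∧ cn A z < Ch)) ⊆
          Fintype.piFinset (fun _ : Fin s => Finset.univ.filter (fun m => A w m)) := by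
        intro z hz
        rw [Fintype.mem_piFinset]
        intro i
        exact Finset.mem_filter.mpr ⟨Finset.mem_univ _, (Finset.mem_filter.mp hz).2.1 i⟩
      refine (Finset.card_le_card g2).trans ?_
      rw [Fintype.card_piFinset]
      simp only [Finset.prod_const, Finset.card_univ, Fintype.card_fin]
      exact le_rfl
    have e5 : ∑ a, f a = ((∑ a, (Finset.univ.filter fun z : Fin s → V =>
        (∀ i, A w (z i) ∧ A a (z i)) ∧ cn A z < Ch).card : ℕ) : ℝ) := by
      push_cast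
      rfl
    rw [e1]
    refine e2.trans ?_
    rw [e5, e3]
    have : ((∑ z ∈ Finset.univ.filter (fun z : Fin s → V => (∀ i, A w (z i)) ∧ cn A z < Ch),
        cn A z : ℕ) : ℝ) ≤ (((deg A w) ^ s * Ch : ℕ) : ℝ) := by exact_mod_cast e4
    refine this.trans (le_of_eq ?_)
    push_cast
    ring
  -- second part
  have hB : ∑ i ∈ Finset.range I, ((2 : ℝ) ^ (s - 1)) ^ i ≤ 2 * (deg A w : ℝ) ^ (s - 1) := by
    apply geo_sum _ hr _ _ (by positivity)
    intro i hi
    rw [Finset.mem_range] at hi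
    have h1 : 2 ^ i ≤ deg A w := by
      have h2 : i ≤ Nat.log 2 (deg A w) := by
        show i ≤ Nat.log 2 (deg A w)
        have : i < Nat.log 2 (deg A w) + 1 := hi
        omega
      exact (Nat.pow_le_pow_right (by norm_num) h2).trans
        (Nat.pow_log_le_self 2 (by omega))
    have h2 : ((2 : ℝ)) ^ i ≤ (deg A w : ℝ) := by exact_mod_cast h1
    calc ((2 : ℝ) ^ (s - 1)) ^ i = ((2 : ℝ) ^ i) ^ (s - 1) := by
          rw [← pow_mul, ← pow_mul, mul_comm]
      _ ≤ (deg A w : ℝ) ^ (s - 1) := pow_le_pow_left₀ (by positivity) h2 _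
  -- third part
  have hC : ∑ i ∈ Finset.range I, (if ((2 : ℝ) ^ (s - 1)) ^ i < L₂ * (deg A w : ℝ) ^ (s - 2) then
        2 ^ s * κ * (deg A w : ℝ) ^ 2 * ((2 : ℝ) ^ (s - 1)) ^ i else 0) ≤
      2 ^ s * κ * (deg A w : ℝ) ^ 2 * (2 * (L₂ * (deg A w : ℝ) ^ (s - 2))) := by
    rw [← Finset.sum_filter, ← Finset.mul_sum]
    apply mul_le_mul_of_nonneg_left _ (by positivity)
    apply geo_sum _ hr _ _ (by positivity)
    intro i hi
    exact (Finset.mem_filter.mp hi).2.le
  have hpow1 : (deg A w : ℝ) ^ (s - 1) * deg A w = (deg A w : ℝ) ^ s := by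
    rw [← pow_succ]
    congr 1
    omega
  have hpow2 : (deg A w : ℝ) ^ 2 * (deg A w : ℝ) ^ (s - 2) = (deg A w : ℝ) ^ s := by
    rw [← pow_add]
    congr 1
    omega
  have htot : ∑ w' ∈ Finset.univ.erase w, (cd A w w' : ℝ) ^ s ≤
      (2 * Ch + 2 * C₂ + 2 ^ (s + 1) * κ * L₂) * (deg A w : ℝ) ^ s := by
    rw [hsum]
    refine (Finset.sum_le_sum hpart).trans ?_
    rw [Finset.sum_add_distrib, Finset.sum_add_distrib, ← Finset.mul_sum, ← Finset.mul_sum,
      ← Finset.sum_mul]
    have b1 : C₂ * ((∑ i ∈ Finset.range I, ((2 : ℝ) ^ (s - 1)) ^ i) * (deg A w : ℝ)) ≤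
        C₂ * (2 * (deg A w : ℝ) ^ s) := by
      apply mul_le_mul_of_nonneg_left _ hC₂.le
      have := mul_le_mul_of_nonneg_right hB hDR.le
      refine this.trans (le_of_eq ?_)
      rw [mul_assoc, hpow1]
    have b2 : 2 ^ s * κ * (deg A w : ℝ) ^ 2 * (2 * (L₂ * (deg A w : ℝ) ^ (s - 2))) =
        2 ^ (s + 1) * κ * L₂ * (deg A w : ℝ) ^ s := by
      rw [← hpow2, pow_succ]
      ring
    have b3 : 2 * ∑ i ∈ Finset.range I, ∑ a ∈ X i, f a ≤ 2 * (Ch * (deg A w : ℝ) ^ s) := by
      linarith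
    have b4 := hC
    rw [b2] at b4
    calc _ ≤ 2 * (Ch * (deg A w : ℝ) ^ s) + C₂ * (2 * (deg A w : ℝ) ^ s) +
          2 ^ (s + 1) * κ * L₂ * (deg A w : ℝ) ^ s := by
          apply add_le_add (add_le_add b3 b1) b4
      _ = _ := by ring
  have hDk : (deg A w : ℝ) ^ s ≤ (κ * d) ^ s :=
    pow_le_pow_left₀ hDR.le (hhi w) s
  calc ∑ w' ∈ Finset.univ.erase w, (cd A w w' : ℝ) ^ s
      ≤ (2 * Ch + 2 * C₂ + 2 ^ (s + 1) * κ * L₂) * (deg A w : ℝ) ^ s := htot
    _ ≤ (2 * Ch + 2 * C₂ + 2 ^ (s + 1) * κ * L₂) * (κ * d) ^ s :=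
        mul_le_mul_of_nonneg_left hDk (by positivity)
    _ = κ ^ s * (2 * Ch + 2 * C₂ + 2 ^ (s + 1) * κ * L₂) * d ^ s := by
        rw [mul_pow]
        ring

end

end Pool.Agent.helper40.IV
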